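import Pool.Agent.H466.LD.L11
import Pool.Agent.H606.AV.Stm6

/-!
# Many real zeros on short segments and a large value near by (S_SEG of helper606)
-/

set_option autoImplicit false

open Complex Filter Topology Metric Set MeasureTheory
open scoped ComplexConjugate

namespace Pool.Agent.H955.AV

open Pool.Agent.H606.AV Pool.Agent.H466.LD

noncomputable section

/-- the half of the average -/
def GG (f : ℂ → ℂ) (h' : ℝ) (z : ℂ) : ℂ := f (-(I * (z + h')))

lemma Av_eq {f : ℂ → ℂ} (hc : ∀ v, f (conj v) = conj (f v)) (h' : ℝ) (z : ℂ) :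
    Av f h' (-(I * z)) = GG f h' z + conj (GG f h' (-conj z)) := by
  unfold Av GG
  rw [← hc]
  have e1 : -(I * z) + I * h' = conj (-(I * (-conj z + h'))) := by
    simp only [map_neg, map_mul, map_add, conj_I, conj_conj, conj_ofReal]
    ring
  have e2 : -(I * z) - I * h' = -(I * (z + h')) := by ring
  rw [e1, e2, add_comm]

lemma GG_diff {f : ℂ → ℂ} (hf : Differentiable ℂ f) (h' : ℝ) : Differentiable ℂ (GG f h') := by
  unfold GG
  fun_prop

lemma arg_im (h' : ℝ) (z : ℂ) : (-(I * (z + h'))).im = -(z.re + h') := by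
  simp

lemma norm_arg {h' : ℝ} {z : ℂ} {a b : ℝ} (h1 : |z.re + h'| ≤ a) (h2 : |z.im| ≤ b)
    (hab : a ^ 2 + b ^ 2 ≤ 16) : ‖-(I * (z + h'))‖ ≤ 4 := by
  rw [norm_neg, norm_mul, norm_I, one_mul]
  have e : ‖z + h'‖ ^ 2 = (z.re + h') ^ 2 + z.im ^ 2 := by
    rw [← Complex.normSq_eq_norm_sq, Complex.normSq_apply, add_re, add_im, ofReal_re, ofReal_im]
    ring
  have h3 : (z.re + h') ^ 2 ≤ a ^ 2 := sq_le_sq' (by linarith [(abs_le.mp h1).1]) (abs_le.mp h1).2
  have h4 : z.im ^ 2 ≤ b ^ 2 := sq_le_sq' (by linarith [(abs_le.mp h2).1]) (abs_le.mp h2).2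
  nlinarith [norm_nonneg (z + (h' : ℂ))]

variable {f : ℂ → ℂ} {M lam h h' δ η : ℝ}

lemma up_b (H : LH f M lam h δ η) {z : ℂ} (hn : ‖-(I * (z + h'))‖ ≤ 4) (hz : h ≤ z.re + h')
    (h0 : 0 ≤ h) : ‖GG f h' z‖ ≤ M * Real.exp (lam * h') * Real.exp (lam * (z.re + η)) := by
  have h1 := H.up _ hn
  rw [arg_im, abs_neg, abs_of_nonneg (h0.trans hz), max_eq_left hz] at h1
  refine h1.trans (le_of_eq ?_)
  rw [mul_assoc, ← Real.exp_add]
  congr 2
  ring

lemma up_a (H : LH f M lam h δ η) (hM : 0 < M) (hlam : 0 ≤ lam) {z : ℂ}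
    (hn : ‖-(I * (z + h'))‖ ≤ 4) (hh : h ≤ h') (h0 : 0 ≤ h') :
    ‖GG f h' z‖ ≤ M * Real.exp (lam * h') * Real.exp (lam * (|z.re| + η)) := by
  have h1 := H.up _ hn
  rw [arg_im, abs_neg] at h1
  refine h1.trans ?_
  rw [mul_assoc, ← Real.exp_add]
  apply mul_le_mul_of_nonneg_left _ hM.le
  apply Real.exp_le_exp.mpr
  have h2 : max |z.re + h'| h ≤ |z.re| + h' := by
    apply max_le
    · refine (abs_add_le _ _).trans ?_
      rw [abs_of_nonneg h0]
    · linarith [abs_nonneg z.re]
  have h3 := mul_le_mul_of_nonneg_left h2 hlam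
  linarith

theorem S_SEG_proof : S_SEG := by
  intro ε0 ε hε0 hε01 hε hε1
  have hπ := Real.pi_pos
  have hπ4 := Real.pi_lt_four
  refine ⟨min (ε0 / 13) (1 / 20), by positivity, ?_⟩
  intro r hr hr0
  have hr1 : r ≤ ε0 / 13 := hr0.trans (min_le_left _ _)
  have hr2 : r ≤ 1 / 20 := hr0.trans (min_le_right _ _)
  set σ : ℝ := ε * r / 100 with hσ
  have hσ0 : 0 < σ := by positivity
  obtain ⟨μ1, hμ1, hbig⟩ := big_point (c0 := 1) (r := r) (σ := σ) hr (by linarith) hσ0
  set η : ℝ := min μ1 (ε * r / 100) with hη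
  have hη0 : 0 < η := lt_min hμ1 (by positivity)
  have hη1 : η ≤ μ1 := min_le_left _ _
  have hη2 : η ≤ ε * r / 100 := min_le_right _ _
  have hεr : 0 < ε * r := by positivity
  have hεr1 : ε * r ≤ r := by nlinarith
  refine ⟨1 / 2, η, max 1 (700 / (ε * r)), by norm_num, hη0, le_max_left _ _, ?_⟩
  intro f M lam h h' hM hlam hh0 hhh' hh' H
  have hlam1 : 1 ≤ lam := (le_max_left _ _).trans hlam
  have hlam2 : 700 ≤ lam * (ε * r) := by
    rw [← div_le_iff₀ (by positivity)]
    exact (le_max_right _ _).trans hlam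
  have hh'0 : 0 ≤ h' := by linarith
  set Γ : ℝ := M * Real.exp (lam * h') with hΓ
  have hΓp : 0 < Γ := by positivity
  have hconj := H.lb.conj
  have hGd : Differentiable ℂ (GG f h') := GG_diff H.lb.diff h'
  have hexp2 : (2 : ℝ) ≤ Real.exp 1 := by linarith [Real.add_one_le_exp (1 : ℝ)]
  refine ⟨?_, ?_⟩
  · -- the upper bound
    intro z hz1 hz2
    have hz3 : |z.re + h'| ≤ 3 := by
      refine (abs_add_le _ _).trans ?_
      rw [abs_of_nonneg hh'0]
      linarith
    have hz3' : |(-conj z).re + h'| ≤ 3 := by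
      refine (abs_add_le _ _).trans ?_
      rw [abs_of_nonneg hh'0, neg_re, conj_re, abs_neg]
      linarith
    have b1 := up_a H hM (by linarith) (norm_arg (a := 3) (b := 5 / 2) hz3 hz2 (by norm_num))
      (by linarith) hh'0
    have b2 := up_a H hM (z := -conj z) (by linarith) (norm_arg (a := 3) (b := 5 / 2) hz3' (by
      rw [neg_im, conj_im, neg_neg]
      exact hz2) (by norm_num)) (by linarith) hh'0
    rw [neg_re, conj_re, abs_neg] at b2
    rw [Av_eq hconj]
    have b3 : ‖GG f h' z + conj (GG f h' (-conj z))‖ ≤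
        2 * (Γ * Real.exp (lam * (|z.re| + η))) := by
      refine (norm_add_le _ _).trans ?_
      rw [RCLike.norm_conj]
      linarith
    refine b3.trans ?_
    calc 2 * (Γ * Real.exp (lam * (|z.re| + η)))
        ≤ Real.exp 1 * (Γ * Real.exp (lam * (|z.re| + η))) := by gcongr
      _ = Γ * Real.exp (lam * (|z.re| + η) + 1) := by
          rw [Real.exp_add]
          ring
      _ ≤ _ := by
          apply mul_le_mul_of_nonneg_left _ hΓp.le
          apply Real.exp_le_exp.mpr
          have h1 : lam * η ≤ lam * (ε * r / 100) := mul_le_mul_of_nonneg_left hη2 (by linarith)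
          nlinarith
  intro τ hτ
  -- the big point
  obtain ⟨w0, hw1, hw2, hw3, hw4⟩ := hbig (GG f h') τ lam Γ hGd hΓp (by linarith)
    (by
      intro z h1 h2 h3
      have h4 : |z.im| ≤ 3 := by
        have e : z.im = (z.im - τ) + τ := by ring
        rw [e]
        refine (abs_add_le _ _).trans ?_
        linarith
      have h40 : 0 ≤ z.re + h' := by linarith
      have h41 : |z.re + h'| ≤ 5 / 2 := by
        rw [abs_of_nonneg h40]
        linarith
      have h5 := up_b H (z := z) (norm_arg (a := 5 / 2) (b := 3) h41 h4 (by norm_num))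
        (by linarith) hh0
      refine h5.trans ?_
      apply mul_le_mul_of_nonneg_left _ hΓp.le
      apply Real.exp_le_exp.mpr
      gcongr)
    (by
      have e1 : (((1 : ℝ) : ℂ) + (τ : ℂ) * I).re = 1 := by simp
      have e2 : (((1 : ℝ) : ℂ) + (τ : ℂ) * I).im = τ := by simp
      have h4 := H.lb.low (-(I * ((((1 : ℝ) : ℂ) + (τ : ℂ) * I) + h')))
        (norm_arg (a := 3 / 2) (b := 2) (by
          rw [e1, abs_of_nonneg (by linarith)]
          linarith) (by rw [e2]; exact hτ) (by norm_num)) (by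
          rw [arg_im, e1]
          linarith)
      rw [arg_im, e1, abs_neg, abs_of_nonneg (by linarith)] at h4
      refine le_trans (le_of_eq ?_) (le_trans (mul_le_mul_of_nonneg_left
        (Real.exp_le_exp.mpr (?_ : lam * h' + lam * (1 - μ1) ≤ lam * (1 + h') - η * lam)) hM.le) h4)
      · rw [hΓ, mul_assoc, ← Real.exp_add]
      · nlinarith)
  have hww : |w0.re| ≤ r := (abs_re_le_norm w0).trans hw3
  have hτw : |τ + w0.im| ≤ 5 / 2 := by
    refine (abs_add_le _ _).trans ?_
    linarith
  refine ⟨⟨w0, hw1, hw2, hw3, ?_⟩, ?_⟩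
  · rw [Av_eq hconj]
    have e0 : -conj ((τ : ℂ) * I + w0) = (τ : ℂ) * I + -conj w0 := by
      rw [map_add, map_mul, conj_ofReal, conj_I]
      ring
    rw [e0]
    have e1 : ((τ : ℂ) * I + -conj w0).re = -w0.re := by simp
    have e2 : ((τ : ℂ) * I + -conj w0).im = τ + w0.im := by simp
    have b1 := up_b H (z := (τ : ℂ) * I + -conj w0) (h' := h') (norm_arg (a := 3 / 2) (b := 5 / 2) (by
      rw [e1]
      refine (abs_add_le _ _).trans ?_
      rw [abs_neg, abs_of_nonneg hh'0]
      linarith) (by rw [e2]; exact hτw) (by norm_num)) (by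
      rw [e1]
      linarith [(abs_le.mp hww).2]) hh0
    rw [e1] at b1
    have b2 : ‖GG f h' ((τ : ℂ) * I + -conj w0)‖ ≤ Γ * Real.exp (lam * (w0.re - σ)) / 2 := by
      have b3 : ‖GG f h' ((τ : ℂ) * I + -conj w0)‖ * Real.exp 1 ≤
          Γ * Real.exp (lam * (w0.re - σ)) := by
        calc ‖GG f h' ((τ : ℂ) * I + -conj w0)‖ * Real.exp 1
            ≤ (Γ * Real.exp (lam * (-w0.re + η))) * Real.exp 1 := by gcongr
          _ = Γ * Real.exp (lam * (-w0.re + η) + 1) := by rw [mul_assoc, ← Real.exp_add]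
          _ ≤ _ := by
              apply mul_le_mul_of_nonneg_left _ hΓp.le
              apply Real.exp_le_exp.mpr
              have h7 : 1 ≤ lam * (ε * r / 700) := by linarith
              have h8 : -w0.re + η + ε * r / 700 ≤ w0.re - σ := by
                rw [hσ]
                linarith
              have h9 := mul_le_mul_of_nonneg_left h8 (by linarith : (0 : ℝ) ≤ lam)
              linarith
      have h7 := norm_nonneg (GG f h' ((τ : ℂ) * I + -conj w0))
      nlinarith
    have b4 : Γ * Real.exp (lam * (w0.re - σ)) / 2 ≤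
        ‖GG f h' ((τ : ℂ) * I + w0) + conj (GG f h' ((τ : ℂ) * I + -conj w0))‖ := by
      have b5 := norm_sub_le_norm_add (GG f h' ((τ : ℂ) * I + w0))
        (conj (GG f h' ((τ : ℂ) * I + -conj w0)))
      rw [RCLike.norm_conj] at b5
      linarith
    refine le_trans ?_ b4
    rw [le_div_iff₀ (by norm_num : (0 : ℝ) < 2)]
    calc Γ * Real.exp (lam * (w0.re - ε * r)) * 2
        ≤ Γ * Real.exp (lam * (w0.re - ε * r)) * Real.exp 1 := by gcongr
      _ = Γ * Real.exp (lam * (w0.re - ε * r) + 1) := by rw [mul_assoc, ← Real.exp_add]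
      _ ≤ _ := by
          apply mul_le_mul_of_nonneg_left _ hΓp.le
          apply Real.exp_le_exp.mpr
          rw [hσ]
          nlinarith
  -- the zeros
  have hBd : Differentiable ℂ (fun w => GG f h' ((τ : ℂ) * I + w)) :=
    hGd.comp ((differentiable_const _).add differentiable_id)
  obtain ⟨S, hS1, hS2⟩ := line_zeros (B := nf (fun w => GG f h' ((τ : ℂ) * I + w)) lam Γ)
    (nf_diff hBd lam Γ) (ℒ := lam) (r := r) (E1 := lam * η) (E2 := lam * σ) (w0 := w0) hr hw3
    (by positivity)
    (by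
      intro w hw
      rw [norm_nf _ _ hΓp, div_mul_eq_mul_div, div_le_iff₀ hΓp]
      have e1 : ((τ : ℂ) * I + w).re = w.re := by simp
      have e2 : ((τ : ℂ) * I + w).im = τ + w.im := by simp
      have h1 := (abs_re_le_norm w).trans hw
      have h2 := (abs_im_le_norm w).trans hw
      have h3 := up_b H (z := (τ : ℂ) * I + w) (h' := h') (norm_arg (a := 1) (b := 5 / 2) (by
        rw [e1]
        refine (abs_add_le _ _).trans ?_
        rw [abs_of_nonneg hh'0]
        linarith) (by
        rw [e2]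
        refine (abs_add_le _ _).trans ?_
        linarith) (by norm_num)) (by
        rw [e1]
        linarith [(abs_le.mp h1).1]) hh0
      rw [e1] at h3
      calc ‖GG f h' ((τ : ℂ) * I + w)‖ * Real.exp (-(lam * w.re))
          ≤ (Γ * Real.exp (lam * (w.re + η))) * Real.exp (-(lam * w.re)) := by gcongr
        _ = _ := by
            rw [mul_assoc, ← Real.exp_add, mul_comm]
            congr 2
            ring)
    (by
      rw [norm_nf _ _ hΓp, div_mul_eq_mul_div, le_div_iff₀ hΓp]
      calc Real.exp (-(lam * σ)) * Γ = Γ * Real.exp (lam * (w0.re - σ)) *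
            Real.exp (-(lam * w0.re)) := by
            rw [mul_assoc, ← Real.exp_add, mul_comm]
            congr 2
            ring
        _ ≤ _ := by gcongr)
  refine ⟨S.image (fun y => τ + y), ?_, ?_⟩
  · intro y hy
    rw [Finset.mem_image] at hy
    obtain ⟨x, hx, rfl⟩ := hy
    obtain ⟨h1, h2, h3⟩ := hS1 x hx
    refine ⟨by linarith, by linarith, ?_⟩
    have e1 : -conj (((τ + x : ℝ) : ℂ) * I) = ((τ + x : ℝ) : ℂ) * I := by
      rw [map_mul, conj_ofReal, conj_I]
      ring
    have e2 : (τ : ℂ) * I + (x : ℂ) * I = ((τ + x : ℝ) : ℂ) * I := by push_cast; ring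
    rw [Av_eq hconj, e1, Complex.add_conj]
    have h5 : nf (fun w => GG f h' ((τ : ℂ) * I + w)) lam Γ ((x : ℂ) * I) *
        cexp ((lam : ℂ) * ((x : ℂ) * I)) =
        ((1 / Γ : ℝ) : ℂ) * GG f h' (((τ + x : ℝ) : ℂ) * I) := by
      rw [← e2]
      unfold nf
      have : cexp (-(lam : ℂ) * ((x : ℂ) * I)) * cexp ((lam : ℂ) * ((x : ℂ) * I)) = 1 := by
        rw [← Complex.exp_add]
        have : -(lam : ℂ) * ((x : ℂ) * I) + (lam : ℂ) * ((x : ℂ) * I) = 0 := by ring
        rw [this, Complex.exp_zero]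
      linear_combination (((1 / Γ : ℝ) : ℂ) * GG f h' ((τ : ℂ) * I + (x : ℂ) * I)) * this
    rw [h5, re_ofReal_mul] at h3
    have h6 : (GG f h' (((τ + x : ℝ) : ℂ) * I)).re = 0 := by
      rcases mul_eq_zero.mp h3 with h7 | h7
      · exact absurd h7 (by positivity)
      · exact h7
    rw [h6]
    simp
  · rw [Finset.card_image_of_injective _ (add_right_injective τ)]
    refine le_trans ?_ hS2
    have h2 : 4 * (lam * η + lam * σ) + 3 ≤ lam * (ε * r) * (2 / 4) := by
      have h3 : η + σ ≤ ε * r * (1 / 50) := by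
        rw [hσ]
        linarith
      have h4 := mul_le_mul_of_nonneg_left h3 (by linarith : (0 : ℝ) ≤ lam)
      linarith
    have h3 : lam * (ε * r) * (2 / 4) ≤ ε * (2 * lam * r / Real.pi) := by
      have h4 : ε * (2 * lam * r / Real.pi) = lam * (ε * r) * (2 / Real.pi) := by ring
      rw [h4]
      apply mul_le_mul_of_nonneg_left _ (by positivity)
      exact div_le_div_of_nonneg_left (by norm_num) hπ hπ4.le
    linarith

end

end Pool.Agent.H955.AV
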